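import Pool.Agent.helper32.CK.Defs

/-!
ck:S0 (project CK, MP_25dcdb_an): the GNS vector of a contractive positive functional of a
non-unital C*-algebra.
-/

namespace Pool.Agent.helper32.CK

open scoped InnerProductSpace ComplexOrder
open Filter Topology

universe u v w

section S0

variable {A : Type u} [NonUnitalCStarAlgebra A] [PartialOrder A] [StarOrderedRing A]

theorem S0_norm_sq (g : A →ₚ[ℂ] ℂ) (a : A) :
    ‖g.toPreGNS a‖ ^ 2 = (g (star a * a)).re := by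
  have h := g.preGNS_norm_sq (g.toPreGNS a)
  have h2 := congrArg Complex.re h
  simpa [← Complex.ofReal_pow] using h2

omit [StarOrderedRing A] in
theorem S0_continuous (g : A →ₚ[ℂ] ℂ) (hg : ∀ a, ‖g a‖ ≤ ‖a‖) : Continuous g :=
  (g.toLinearMap.mkContinuous 1 (fun x => by simpa using hg x)).continuous

theorem S0_cs (g : A →ₚ[ℂ] ℂ) (hg : ∀ a, ‖g a‖ ≤ ‖a‖) (e a : A) (he : ‖e‖ ≤ 1) :
    ‖g (star e * a)‖ ^ 2 ≤ (g (star a * a)).re := by
  have h := norm_inner_le_norm (𝕜 := ℂ) (g.toPreGNS e) (g.toPreGNS a)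
  rw [PositiveLinearMap.preGNS_inner_def] at h
  simp only [PositiveLinearMap.ofPreGNS_toPreGNS] at h
  have h1 : ‖g.toPreGNS e‖ ≤ 1 := by
    have h2 : ‖g.toPreGNS e‖ ^ 2 ≤ 1 := by
      rw [S0_norm_sq]
      calc (g (star e * e)).re ≤ ‖g (star e * e)‖ := Complex.re_le_norm _
        _ ≤ ‖star e * e‖ := hg _
        _ = ‖e‖ * ‖e‖ := CStarRing.norm_star_mul_self
        _ ≤ 1 := by nlinarith [norm_nonneg e]
    nlinarith [norm_nonneg (g.toPreGNS e)]
  rw [← S0_norm_sq]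
  have h3 : ‖g (star e * a)‖ ≤ ‖g.toPreGNS a‖ :=
    h.trans (mul_le_of_le_one_left (norm_nonneg _) h1)
  gcongr

theorem norm_sq_le (g : A →ₚ[ℂ] ℂ) (hg : ∀ a, ‖g a‖ ≤ ‖a‖) (a : A) :
    ‖g a‖ ^ 2 ≤ (g (star a * a)).re := by
  have hu := CStarAlgebra.increasingApproximateUnit A
  have h1 : Tendsto (fun e : A => e * a) (CStarAlgebra.approximateUnit A) (𝓝 a) :=
    hu.tendsto_mul_right a
  have h2 : Tendsto (fun e : A => ‖g (e * a)‖ ^ 2) (CStarAlgebra.approximateUnit A)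
      (𝓝 (‖g a‖ ^ 2)) :=
    ((continuous_norm.comp (S0_continuous g hg)).pow 2).continuousAt.tendsto.comp h1
  refine le_of_tendsto h2 ?_
  filter_upwards [hu.eventually_norm, hu.eventually_star_eq] with e he1 he2
  have := S0_cs g hg e a he1
  rwa [he2] at this

theorem gns_vec (g : A →ₚ[ℂ] ℂ) (hg : ∀ a, ‖g a‖ ≤ ‖a‖) :
    ∃ (G : Type u) (_ : NormedAddCommGroup G) (_ : InnerProductSpace ℂ G) (_ : CompleteSpace G)
      (π : A →⋆ₙₐ[ℂ] (G →L[ℂ] G)) (ξ : G), ‖ξ‖ ≤ 1 ∧ (∀ a, ⟪ξ, π a ξ⟫_ℂ = g a) ∧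
      Dense (Set.range fun a => π a ξ) := by
  set e : g.PreGNS →ₗ[ℂ] g.GNS :=
    (UniformSpace.Completion.toComplₗᵢ : g.PreGNS →ₗᵢ[ℂ] g.GNS).toLinearMap with he
  have hee : ∀ x : g.PreGNS, e x = (x : g.GNS) := fun x => rfl
  set f : g.PreGNS →ₗ[ℂ] ℂ := g.toLinearMap ∘ₗ g.ofPreGNS.toLinearMap with hf
  have hff : ∀ x : g.PreGNS, f x = g (g.ofPreGNS x) := fun x => rfl
  have hdense : DenseRange e := UniformSpace.Completion.denseRange_coe
  have hnorm : ∀ x, ‖f x‖ ≤ 1 * ‖e x‖ := by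
    intro x
    rw [hee, UniformSpace.Completion.norm_coe, one_mul, hff]
    have h1 := norm_sq_le g hg (g.ofPreGNS x)
    have h2 := S0_norm_sq g (g.ofPreGNS x)
    have h3 : g.toPreGNS (g.ofPreGNS x) = x := rfl
    rw [h3] at h2
    rw [← h2] at h1
    exact (sq_le_sq₀ (norm_nonneg _) (norm_nonneg _)).mp h1
  set L : g.GNS →L[ℂ] ℂ := f.extendOfNorm e with hL
  have hLe : ∀ x : g.PreGNS, L (x : g.GNS) = g (g.ofPreGNS x) := by
    intro x
    have := LinearMap.extendOfNorm_eq (f := f) (e := e) hdense ⟨1, hnorm⟩ x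
    rw [hee] at this
    rw [hL, this, hff]
  have hLn : ‖L‖ ≤ 1 := LinearMap.opNorm_extendOfNorm_le hdense zero_le_one hnorm
  set ξ : g.GNS := (InnerProductSpace.toDual ℂ g.GNS).symm L with hξ
  have hξL : ∀ y : g.GNS, ⟪ξ, y⟫_ℂ = L y := fun y =>
    InnerProductSpace.toDual_symm_apply
  have hπ : ∀ a : A, g.gnsNonUnitalStarAlgHom a ξ = ((g.toPreGNS a : g.PreGNS) : g.GNS) := by
    intro a
    refine ext_inner_right ℂ (fun y => ?_)
    induction y using UniformSpace.Completion.induction_on with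
    | hp => apply isClosed_eq <;> fun_prop
    | ih y =>
      have h1 : ⟪g.gnsNonUnitalStarAlgHom a ξ, (y : g.GNS)⟫_ℂ =
          ⟪ξ, g.gnsNonUnitalStarAlgHom (star a) (y : g.GNS)⟫_ℂ := by
        rw [map_star, ContinuousLinearMap.star_eq_adjoint,
          ContinuousLinearMap.adjoint_inner_right]
      rw [h1, PositiveLinearMap.gnsNonUnitalStarAlgHom_apply_coe, hξL, hLe,
        UniformSpace.Completion.inner_coe, PositiveLinearMap.preGNS_inner_def]
      simp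
  refine ⟨g.GNS, inferInstance, inferInstance, inferInstance, g.gnsNonUnitalStarAlgHom, ξ, ?_, ?_,
    ?_⟩
  · rw [hξ, LinearIsometryEquiv.norm_map]
    exact hLn
  · intro a
    rw [hπ, hξL, hLe]
    rfl
  · have : (Set.range fun a => g.gnsNonUnitalStarAlgHom a ξ) =
        Set.range ((↑) : g.PreGNS → g.GNS) := by
      ext y
      constructor
      · rintro ⟨a, rfl⟩
        exact ⟨g.toPreGNS a, (hπ a).symm⟩
      · rintro ⟨x, rfl⟩
        exact ⟨g.ofPreGNS x, hπ _⟩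
    rw [this]
    exact UniformSpace.Completion.denseRange_coe

end S0

end Pool.Agent.helper32.CK
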