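import Pool.Agent.helper32.CK.Defs
import Pool.Agent.helper49.CK.W
import Pool.Agent.helper49.CK.I2
import Pool.Agent.helper26.CK.K3
import Pool.Agent.helper26.CK.K3b

/-!
ck:V (project CK, MP_25dcdb_an): the intertwiner.
-/

namespace Pool.Agent.helper32.CK

open scoped InnerProductSpace ComplexOrder
open Filter Topology

universe u v w


section V

/-- Approximate equality of Gram matrices. -/
theorem V_gram {K : Type v} {H : Type w} [NormedAddCommGroup K] [InnerProductSpace ℂ K]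
    [NormedAddCommGroup H] [InnerProductSpace ℂ H] {ι : Type*} [Fintype ι] (u : ι → H) (u' : ι → K)
    (c : ι → ℂ) (hc : ∀ i, ‖c i‖ ≤ 1) (κ : ℝ)
    (h : ∀ i j, ‖⟪u i, u j⟫_ℂ - ⟪u' i, u' j⟫_ℂ‖ ≤ κ) :
    ‖∑ i, c i • u i‖ ^ 2 ≤ ‖∑ i, c i • u' i‖ ^ 2 + (Fintype.card ι : ℝ) ^ 2 * κ := by
  have e1 : (⟪∑ i, c i • u i, ∑ j, c j • u j⟫_ℂ - ⟪∑ i, c i • u' i, ∑ j, c j • u' j⟫_ℂ) =
      ∑ i, ∑ j, (starRingEnd ℂ) (c i) * (c j * (⟪u i, u j⟫_ℂ - ⟪u' i, u' j⟫_ℂ)) := by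
    rw [sum_inner, sum_inner, ← Finset.sum_sub_distrib]
    refine Finset.sum_congr rfl fun i _ => ?_
    rw [inner_sum, inner_sum, ← Finset.sum_sub_distrib]
    refine Finset.sum_congr rfl fun j _ => ?_
    rw [inner_smul_left, inner_smul_right, inner_smul_left, inner_smul_right]
    ring
  have e2 : ‖(⟪∑ i, c i • u i, ∑ j, c j • u j⟫_ℂ - ⟪∑ i, c i • u' i, ∑ j, c j • u' j⟫_ℂ)‖ ≤
      (Fintype.card ι : ℝ) ^ 2 * κ := by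
    rw [e1]
    refine (norm_sum_le _ _).trans ?_
    have : ∀ i ∈ Finset.univ, ‖∑ j, (starRingEnd ℂ) (c i) *
        (c j * (⟪u i, u j⟫_ℂ - ⟪u' i, u' j⟫_ℂ))‖ ≤ (Fintype.card ι : ℝ) * κ := by
      intro i _
      refine (norm_sum_le _ _).trans ?_
      have h2 : ∀ j ∈ Finset.univ, ‖(starRingEnd ℂ) (c i) *
          (c j * (⟪u i, u j⟫_ℂ - ⟪u' i, u' j⟫_ℂ))‖ ≤ κ := by
        intro j _
        rw [norm_mul, norm_mul, RCLike.norm_conj]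
        have a1 := hc i
        have a2 := hc j
        have a3 := h i j
        have a4 := norm_nonneg (⟪u i, u j⟫_ℂ - ⟪u' i, u' j⟫_ℂ)
        calc ‖c i‖ * (‖c j‖ * ‖⟪u i, u j⟫_ℂ - ⟪u' i, u' j⟫_ℂ‖)
            ≤ 1 * (1 * ‖⟪u i, u j⟫_ℂ - ⟪u' i, u' j⟫_ℂ‖) := by gcongr
          _ ≤ κ := by linarith
      refine (Finset.sum_le_card_nsmul _ _ _ h2).trans ?_
      rw [Finset.card_univ, nsmul_eq_mul]
    refine (Finset.sum_le_card_nsmul _ _ _ this).trans ?_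
    rw [Finset.card_univ, nsmul_eq_mul]
    apply le_of_eq
    ring
  have e3 := (Complex.re_le_norm _).trans e2
  rw [Complex.sub_re] at e3
  have e4 := inner_self_eq_norm_sq (𝕜 := ℂ) (∑ i, c i • u i)
  have e5 := inner_self_eq_norm_sq (𝕜 := ℂ) (∑ i, c i • u' i)
  simp only [RCLike.re_to_complex] at e4 e5
  rw [e4, e5] at e3
  linarith

variable {A : Type u} [NonUnitalCStarAlgebra A] {K : Type v} {H : Type w}
    [NormedAddCommGroup K] [InnerProductSpace ℂ K] [CompleteSpace K] [NormedAddCommGroup H]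
    [InnerProductSpace ℂ H] [CompleteSpace H]

theorem V_norm_le (σ : A →⋆ₙₐ[ℂ] (K →L[ℂ] K)) {a : A} (ha : ‖a‖ ≤ 1) (v : K) :
    ‖σ a v‖ ≤ ‖v‖ := by
  have h1 : ‖σ a‖ ≤ 1 := (NonUnitalStarAlgHom.norm_apply_le σ a).trans ha
  calc ‖σ a v‖ ≤ ‖σ a‖ * ‖v‖ := (σ a).le_opNorm v
    _ ≤ 1 * ‖v‖ := by gcongr
    _ = ‖v‖ := one_mul _

omit [CompleteSpace H] in
theorem V_op_le {T : H →L[ℂ] H} {r : ℝ} (hT : ‖T‖ ≤ r) (v : H) (hv : ‖v‖ ≤ 1) :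
    ‖T v‖ ≤ r := by
  have hr : 0 ≤ r := (norm_nonneg _).trans hT
  calc ‖T v‖ ≤ ‖T‖ * ‖v‖ := T.le_opNorm v
    _ ≤ r * 1 := by gcongr
    _ = r := mul_one r

theorem V_inner {σ : A →⋆ₙₐ[ℂ] (K →L[ℂ] K)} (η : K) (θ : A → (H →L[ℂ] H)) (ξ : H) (hξ : ‖ξ‖ = 1)
    (τ : ℝ) (hθ : ApproxHom (τ ^ 2) θ)
    (hnear : ∀ a, ‖a‖ ≤ 1 → ‖⟪η, σ a η⟫_ℂ - ⟪ξ, θ a ξ⟫_ℂ‖ ≤ τ ^ 2) {a a' : A} (ha : ‖a‖ ≤ 1)
    (ha' : ‖a'‖ ≤ 1) :
    ‖⟪θ a ξ, θ a' ξ⟫_ℂ - ⟪σ a η, σ a' η⟫_ℂ‖ ≤ 3 * τ ^ 2 := by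
  have hsa : ‖star a‖ ≤ 1 := by rw [norm_star]; exact ha
  have hp : ‖star a * a'‖ ≤ 1 := by
    refine (norm_mul_le _ _).trans ?_
    calc ‖star a‖ * ‖a'‖ ≤ 1 * 1 := by gcongr
      _ = 1 := one_mul 1
  have hv : ‖θ a' ξ‖ ≤ 1 := V_op_le (hθ.norm_le a' ha') ξ hξ.le
  have e1 : ⟪θ a ξ, θ a' ξ⟫_ℂ = ⟪ξ, (star (θ a)) (θ a' ξ)⟫_ℂ := by
    rw [ContinuousLinearMap.star_eq_adjoint, ContinuousLinearMap.adjoint_inner_right]
  have e2 : ⟪σ a η, σ a' η⟫_ℂ = ⟪η, σ (star a * a') η⟫_ℂ := by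
    rw [map_mul, map_star, ContinuousLinearMap.star_eq_adjoint, mul_apply_eq_comp,
      ContinuousLinearMap.adjoint_inner_right]
  have b1 : ‖⟪ξ, (star (θ a) - θ (star a)) (θ a' ξ)⟫_ℂ‖ ≤ τ ^ 2 := by
    refine (norm_inner_le_norm _ _).trans ?_
    rw [hξ, one_mul]
    refine V_op_le ?_ _ hv
    rw [norm_sub_rev]
    exact hθ.star a ha
  have b2 : ‖⟪ξ, (θ (star a) * θ a' - θ (star a * a')) ξ⟫_ℂ‖ ≤ τ ^ 2 := by
    refine (norm_inner_le_norm _ _).trans ?_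
    rw [hξ, one_mul]
    refine V_op_le ?_ _ hξ.le
    rw [norm_sub_rev]
    exact hθ.mul _ _ hsa ha'
  have b3 := hnear _ hp
  rw [norm_sub_rev] at b3
  have e3 : ⟪θ a ξ, θ a' ξ⟫_ℂ - ⟪σ a η, σ a' η⟫_ℂ =
      ⟪ξ, (star (θ a) - θ (star a)) (θ a' ξ)⟫_ℂ +
        ⟪ξ, (θ (star a) * θ a' - θ (star a * a')) ξ⟫_ℂ +
        (⟪ξ, θ (star a * a') ξ⟫_ℂ - ⟪η, σ (star a * a') η⟫_ℂ) := by
    rw [e1, e2]
    simp only [sub_apply, mul_apply_eq_comp, inner_sub_right]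
    ring
  rw [e3]
  refine (norm_add₃_le).trans ?_
  linarith

theorem V_dist {σ : A →⋆ₙₐ[ℂ] (K →L[ℂ] K)} (η : K) (θ : A → (H →L[ℂ] H)) (ξ : H) (hξ : ‖ξ‖ = 1)
    (τ : ℝ) (hτ0 : 0 ≤ τ) (hθ : ApproxHom (τ ^ 2) θ)
    (hnear : ∀ a, ‖a‖ ≤ 1 → ‖⟪η, σ a η⟫_ℂ - ⟪ξ, θ a ξ⟫_ℂ‖ ≤ τ ^ 2) {a a' : A} (ha : ‖a‖ ≤ 1)
    (ha' : ‖a'‖ ≤ 1) :
    ‖θ a ξ - θ a' ξ‖ ≤ ‖σ a η - σ a' η‖ + 7 / 2 * τ := by
  have h := V_gram (H := H) (K := K) (ι := Fin 2) ![θ a ξ, θ a' ξ] ![σ a η, σ a' η] ![1, -1]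
    (fun i => by fin_cases i <;> simp) (3 * τ ^ 2) (fun i j => by
      fin_cases i <;> fin_cases j <;>
        simp only [Fin.zero_eta, Fin.isValue, Fin.mk_one, Matrix.cons_val_zero,
          Matrix.cons_val_one] <;>
        first
          | exact V_inner η θ ξ hξ τ hθ hnear ha ha
          | exact V_inner η θ ξ hξ τ hθ hnear ha ha'
          | exact V_inner η θ ξ hξ τ hθ hnear ha' ha
          | exact V_inner η θ ξ hξ τ hθ hnear ha' ha')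
  simp only [Fin.sum_univ_two, Fin.isValue, Matrix.cons_val_zero, Matrix.cons_val_one, one_smul,
    neg_smul, Fintype.card_fin, Nat.cast_ofNat] at h
  rw [← sub_eq_add_neg, ← sub_eq_add_neg] at h
  have h0 := norm_nonneg (σ a η - σ a' η)
  have h2 : ‖θ a ξ - θ a' ξ‖ ^ 2 ≤ (‖σ a η - σ a' η‖ + 7 / 2 * τ) ^ 2 := by
    refine h.trans ?_
    nlinarith [mul_nonneg h0 hτ0, sq_nonneg τ]
  exact (sq_le_sq₀ (norm_nonneg _) (by positivity)).mp h2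

theorem intertwine {A : Type u} [NonUnitalCStarAlgebra A] {K : Type v} {H : Type w}
    [NormedAddCommGroup K] [InnerProductSpace ℂ K] [CompleteSpace K] [NormedAddCommGroup H]
    [InnerProductSpace ℂ H] [CompleteSpace H] {σ : A →⋆ₙₐ[ℂ] (K →L[ℂ] K)} (hσ : Irr σ)
    (η : K) (hη : ‖η‖ = 1) (θ : A → (H →L[ℂ] H)) (ξ : H) (hξ : ‖ξ‖ = 1) (τ : ℝ) (hτ0 : 0 < τ)
    (hτ : τ ≤ 1 / 10 ^ 13) (hθ : ApproxHom (τ ^ 2) θ)
    (hnear : ∀ a, ‖a‖ ≤ 1 → ‖⟪η, σ a η⟫_ℂ - ⟪ξ, θ a ξ⟫_ℂ‖ ≤ τ ^ 2)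
    (honto : ∀ y, ‖y‖ ≤ 1 → ∃ a, ‖a‖ ≤ 1 ∧ ‖θ a ξ - y‖ ≤ τ ^ 2) :
    ∃ U : K ≃ₗᵢ[ℂ] H, ∀ a, ‖a‖ ≤ 1 → ∀ x, ‖x‖ ≤ 1 →
      ‖U (σ a x) - θ a (U x)‖ ≤ 10 ^ 13 * τ := by
  have hττ : τ ^ 2 ≤ τ / 100 := by
    have : τ ≤ 1 / 100 := hτ.trans (by norm_num)
    nlinarith
  have hsq : 0 < τ ^ 2 := by positivity
  -- the map V
  have hex : ∀ x : K, ∃ b : A, ‖x‖ ≤ 1 → (‖b‖ ≤ 1 ∧ ‖σ b η - x‖ ≤ τ ^ 2) := by
    intro x
    by_cases hx : ‖x‖ ≤ 1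
    · obtain ⟨b, hb1, hb2⟩ := hσ.vec η hη x hx (τ ^ 2) hsq
      exact ⟨b, fun _ => ⟨hb1, hb2⟩⟩
    · exact ⟨0, fun h => absurd h hx⟩
  choose α hα using hex
  set V : K → H := fun x => θ (α x) ξ with hV
  have hσ1 : ∀ a : A, ‖a‖ ≤ 1 → ‖σ a η‖ ≤ 1 := fun a ha => (V_norm_le σ ha η).trans hη.le
  have hdist := fun {a a' : A} (ha : ‖a‖ ≤ 1) (ha' : ‖a'‖ ≤ 1) =>
    V_dist (σ := σ) η θ ξ hξ τ hτ0.le hθ hnear ha ha'
  -- (a)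
  have hVa : ∀ x y, ‖x‖ ≤ 1 → ‖y‖ ≤ 1 → ‖⟪V x, V y⟫_ℂ - ⟪x, y⟫_ℂ‖ ≤ 5 * τ ^ 2 := by
    intro x y hx hy
    obtain ⟨a1, a2⟩ := hα x hx
    obtain ⟨b1, b2⟩ := hα y hy
    have c1 := V_inner (σ := σ) η θ ξ hξ τ hθ hnear a1 b1
    have e : ⟪V x, V y⟫_ℂ - ⟪x, y⟫_ℂ = (⟪θ (α x) ξ, θ (α y) ξ⟫_ℂ - ⟪σ (α x) η, σ (α y) η⟫_ℂ) +
        ⟪σ (α x) η - x, σ (α y) η⟫_ℂ + ⟪x, σ (α y) η - y⟫_ℂ := by
      simp only [hV, inner_sub_left, inner_sub_right]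
      ring
    have c2 : ‖⟪σ (α x) η - x, σ (α y) η⟫_ℂ‖ ≤ τ ^ 2 := by
      refine (norm_inner_le_norm _ _).trans ?_
      have := hσ1 _ b1
      calc ‖σ (α x) η - x‖ * ‖σ (α y) η‖ ≤ τ ^ 2 * 1 := by gcongr
        _ = τ ^ 2 := mul_one _
    have c3 : ‖⟪x, σ (α y) η - y⟫_ℂ‖ ≤ τ ^ 2 := by
      refine (norm_inner_le_norm _ _).trans ?_
      calc ‖x‖ * ‖σ (α y) η - y‖ ≤ 1 * τ ^ 2 := by gcongr
        _ = τ ^ 2 := one_mul _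
    rw [e]
    refine (norm_add₃_le).trans ?_
    linarith
  -- comparison of `V x` with `θ a ξ`
  have hcmp : ∀ x, ‖x‖ ≤ 1 → ∀ a, ‖a‖ ≤ 1 → ∀ κ, ‖σ a η - x‖ ≤ κ →
      ‖θ a ξ - V x‖ ≤ κ + τ ^ 2 + 7 / 2 * τ := by
    intro x hx a ha κ hκ
    obtain ⟨a1, a2⟩ := hα x hx
    refine (hdist ha a1).trans ?_
    have : ‖σ a η - σ (α x) η‖ ≤ ‖σ a η - x‖ + ‖x - σ (α x) η‖ := norm_sub_le_norm_sub_add_norm_sub _ _ _
    rw [norm_sub_rev x] at this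
    linarith
  -- products
  have hprod : ∀ b, ‖b‖ ≤ 1 → ∀ x, ‖x‖ ≤ 1 → ∀ y, ‖y‖ ≤ 1 → ∀ κ, ‖σ b x - y‖ ≤ κ →
      ‖θ b (V x) - V y‖ ≤ κ + 3 * τ ^ 2 + 7 / 2 * τ := by
    intro b hb x hx y hy κ hκ
    obtain ⟨a1, a2⟩ := hα x hx
    have hp : ‖b * α x‖ ≤ 1 := by
      refine (norm_mul_le _ _).trans ?_
      calc ‖b‖ * ‖α x‖ ≤ 1 * 1 := by gcongr
        _ = 1 := one_mul 1
    have c1 : ‖σ (b * α x) η - y‖ ≤ κ + τ ^ 2 := by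
      have e : σ (b * α x) η - y = σ b (σ (α x) η - x) + (σ b x - y) := by
        rw [map_mul, mul_apply_eq_comp, map_sub]
        abel
      rw [e]
      refine (norm_add_le _ _).trans ?_
      have := V_norm_le σ hb (σ (α x) η - x)
      linarith
    have c2 := hcmp y hy _ hp _ c1
    have c3 : ‖θ b (V x) - θ (b * α x) ξ‖ ≤ τ ^ 2 := by
      have e : θ b (V x) - θ (b * α x) ξ = -((θ (b * α x) - θ b * θ (α x)) ξ) := by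
        simp only [hV, sub_apply, mul_apply_eq_comp]
        abel
      rw [e, norm_neg]
      exact V_op_le (hθ.mul _ _ hb a1) _ hξ.le
    have c4 : ‖θ b (V x) - V y‖ ≤ ‖θ b (V x) - θ (b * α x) ξ‖ + ‖θ (b * α x) ξ - V y‖ :=
      norm_sub_le_norm_sub_add_norm_sub _ _ _
    linarith
  -- (b)
  have hVb : ∀ y, ‖y‖ ≤ 1 → ∃ x, ‖x‖ ≤ 1 ∧ ‖V x - y‖ ≤ 5 * τ := by
    intro y hy
    obtain ⟨a, ha, ha2⟩ := honto y hy
    refine ⟨σ a η, hσ1 a ha, ?_⟩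
    have c1 := hcmp (σ a η) (hσ1 a ha) a ha 0 (by simp)
    have c2 : ‖V (σ a η) - y‖ ≤ ‖V (σ a η) - θ a ξ‖ + ‖θ a ξ - y‖ :=
      norm_sub_le_norm_sub_add_norm_sub _ _ _
    rw [norm_sub_rev (V (σ a η)) (θ a ξ)] at c2
    linarith
  -- selfadjoint contractions
  have hsa : ∀ T : K →L[ℂ] K, IsSelfAdjoint T → ‖T‖ ≤ 1 → ∃ T' : H →L[ℂ] H, ∀ x, ‖x‖ ≤ 1 →
      ‖T' (V x) - V (T x)‖ ≤ 5 * τ := by
    intro T hT hT1
    classical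
    have hb := fun j : Finset K × ℕ => hσ.kap T hT hT1 j.1 (1 / ((j.2 : ℝ) + 1)) (by positivity)
    choose b hb1 hb2 hb3 using hb
    set 𝒰 : Ultrafilter (Finset K × ℕ) := Ultrafilter.of atTop with h𝒰
    have hle : (𝒰 : Filter (Finset K × ℕ)) ≤ atTop := Ultrafilter.of_le _
    obtain ⟨L, -, -, hL⟩ := exists_wlim 𝒰 (fun j => θ (b j)) 1 (fun j => hθ.norm_le _ (hb2 j))
    refine ⟨L, fun x hx => hL _ _ _ ?_⟩
    have hTx : ‖T x‖ ≤ 1 := V_op_le hT1 x hx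
    obtain ⟨N, hN⟩ := exists_nat_one_div_lt hsq
    refine hle ?_
    rw [mem_atTop_sets]
    refine ⟨({x}, N), fun j hj => ?_⟩
    have h1 : x ∈ j.1 := hj.1 (by simp)
    have h2 : N ≤ j.2 := hj.2
    have h3 := hb3 j x h1
    have h4 : 1 / ((j.2 : ℝ) + 1) ≤ τ ^ 2 := by
      refine le_trans ?_ hN.le
      have : (N : ℝ) ≤ j.2 := by exact_mod_cast h2
      gcongr
    have h5 := hprod (b j) (hb2 j) x hx (T x) hTx (τ ^ 2) (h3.trans h4)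
    show ‖θ (b j) (V x) - V (T x)‖ ≤ 5 * τ
    linarith
  -- (c)
  have hVc : ∀ T : K →L[ℂ] K, ‖T‖ ≤ 1 → ∃ T' : H →L[ℂ] H, ∀ x, ‖x‖ ≤ 1 →
      ‖T' (V x) - V (T x)‖ ≤ 18 * τ := by
    intro T hT
    have hr : ‖((realPart T : selfAdjoint (K →L[ℂ] K)) : K →L[ℂ] K)‖ ≤ 1 :=
      (realPart.norm_le T).trans hT
    have hi : ‖((imaginaryPart T : selfAdjoint (K →L[ℂ] K)) : K →L[ℂ] K)‖ ≤ 1 :=
      (imaginaryPart.norm_le T).trans hT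
    obtain ⟨L1, hL1⟩ := hsa _ (realPart T).2 hr
    obtain ⟨L2, hL2⟩ := hsa _ (imaginaryPart T).2 hi
    refine ⟨L1 + Complex.I • L2, fun x hx => ?_⟩
    set T1 : K →L[ℂ] K := ((realPart T : selfAdjoint (K →L[ℂ] K)) : K →L[ℂ] K) with hT1
    set T2 : K →L[ℂ] K := ((imaginaryPart T : selfAdjoint (K →L[ℂ] K)) : K →L[ℂ] K) with hT2
    have hTT : T1 + Complex.I • T2 = T := realPart_add_I_smul_imaginaryPart T
    have n1 : ‖T1 x‖ ≤ 1 := V_op_le hr x hx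
    have n2 : ‖T2 x‖ ≤ 1 := V_op_le hi x hx
    have n3 : ‖T x‖ ≤ 1 := V_op_le hT x hx
    have g := V_gram (H := H) (K := K) (ι := Fin 3) ![V (T1 x), V (T2 x), V (T x)]
      ![T1 x, T2 x, T x] ![1, Complex.I, -1]
      (fun i => by fin_cases i <;> simp) (5 * τ ^ 2) (fun i j => by
        fin_cases i <;> fin_cases j <;>
          simp only [Fin.zero_eta, Fin.isValue, Fin.mk_one, Matrix.cons_val_zero,
            Matrix.cons_val_one, Fin.reduceFinMk, Matrix.cons_val] <;>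
          refine hVa _ _ ?_ ?_ <;> assumption)
    simp only [Fin.sum_univ_three, Fin.isValue, Matrix.cons_val_zero, Matrix.cons_val_one,
      Matrix.cons_val, one_smul, neg_smul, Fintype.card_fin, Nat.cast_ofNat] at g
    have hz : T1 x + Complex.I • T2 x + -(T x) = 0 := by
      rw [← hTT]
      simp only [add_apply, smul_apply]
      abel
    rw [hz, norm_zero] at g
    have g2 : ‖V (T1 x) + Complex.I • V (T2 x) + -V (T x)‖ ≤ 7 * τ := by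
      have : ‖V (T1 x) + Complex.I • V (T2 x) + -V (T x)‖ ^ 2 ≤ (7 * τ) ^ 2 := by
        refine g.trans ?_
        nlinarith
      exact (sq_le_sq₀ (norm_nonneg _) (by positivity)).mp this
    have e : (L1 + Complex.I • L2) (V x) - V (T x) = (L1 (V x) - V (T1 x)) +
        Complex.I • (L2 (V x) - V (T2 x)) + (V (T1 x) + Complex.I • V (T2 x) + -V (T x)) := by
      simp only [add_apply, smul_apply, smul_sub]
      abel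
    rw [e]
    refine (norm_add₃_le).trans ?_
    rw [norm_smul, Complex.norm_I, one_mul]
    have := hL1 x hx
    have := hL2 x hx
    linarith
  -- conclusion
  obtain ⟨U, hU⟩ := near_unitary (18 * τ) (by positivity) (by norm_num at hτ ⊢; linarith) V
    (fun x y hx hy => (hVa x y hx hy).trans (by nlinarith))
    (fun y hy => by
      obtain ⟨x, hx, hx2⟩ := hVb y hy
      exact ⟨x, hx, hx2.trans (by linarith)⟩) hVc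
  refine ⟨U, fun a ha x hx => ?_⟩
  have hax : ‖σ a x‖ ≤ 1 := (V_norm_le σ ha x).trans hx
  have c1 := hU (σ a x) hax
  have c2 := hprod a ha x hx (σ a x) hax 0 (by simp)
  have c3 : ‖θ a (V x - U x)‖ ≤ 10 ^ 11 * (18 * τ) := by
    have h1 := hU x hx
    rw [norm_sub_rev] at h1
    calc ‖θ a (V x - U x)‖ ≤ ‖θ a‖ * ‖V x - U x‖ := (θ a).le_opNorm _
      _ ≤ 1 * (10 ^ 11 * (18 * τ)) := by
        have := hθ.norm_le a ha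
        gcongr
      _ = 10 ^ 11 * (18 * τ) := one_mul _
  have e : U (σ a x) - θ a (U x) = (U (σ a x) - V (σ a x)) - (θ a (V x) - V (σ a x)) +
      θ a (V x - U x) := by
    rw [map_sub]
    abel
  rw [e]
  refine (norm_add_le _ _).trans ?_
  have c4 := norm_sub_le (U (σ a x) - V (σ a x)) (θ a (V x) - V (σ a x))
  linarith

end V

end Pool.Agent.helper32.CK
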